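import Pool.Agent.R452.SZ.Core

set_option autoImplicit false

/-!
# The sublinear projective Schwartz-Zippel bound

A variety `X` in `P^n` over the rationals is given by a homogeneous ideal `I` of the polynomial
ring in `n + 1` variables; its irreducible components are the zero sets of the minimal primes
of `I`.
-/

namespace Pool.Agent.Results.MP_a053e2_nt.Sublinear

open MvPolynomial Filter

attribute [local instance] MvPolynomial.gradedAlgebra

/-- The polynomial ring in `n + 1` variables over the rationals. -/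
abbrev Poly (n : ℕ) : Type := MvPolynomial (Fin (n + 1)) ℚ

/-- The Hilbert function of `p`: the dimension over the rationals of the image in `ℚ[x]/p` of the
space of forms of degree `t`. -/
noncomputable def hilbertFn {n : ℕ} (p : Ideal (Poly n)) (t : ℕ) : ℕ :=
  Module.finrank ℚ ((homogeneousSubmodule (Fin (n + 1)) ℚ t).map
    (Ideal.Quotient.mkₐ ℚ p).toLinearMap)

/-- `δ` is the degree of the variety of dimension `k` defined by the homogeneous prime `p`: the
Hilbert function is asymptotic to `δ t ^ k / k!`, that is, `k!` times the leading coefficient of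
the Hilbert polynomial is `δ`. -/
def IsDegree {n : ℕ} (k : ℕ) (p : Ideal (Poly n)) (δ : ℝ) : Prop :=
  Tendsto (fun t : ℕ => (k.factorial : ℝ) * (hilbertFn p t : ℝ) / (t : ℝ) ^ k) atTop (nhds δ)

/-- All the irreducible components of the zero set of `I` in projective space have dimension `k`:
the homogeneous coordinate rings `ℚ[x]/p` of the components, where `p` runs over the minimal primes
of `I`, have transcendence degree `k + 1` over the rationals. -/
def PureDim {n : ℕ} (k : ℕ) (I : Ideal (Poly n)) : Prop :=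
  ∀ p ∈ I.minimalPrimes, Algebra.trdeg ℚ (Poly n ⧸ p) = ((k + 1 : ℕ) : Cardinal)

/-- The rational points of height at most `B` of the zero set of `I` in projective space: the
points with integer homogeneous coordinates of absolute value at most `B` at which all the
elements of `I` vanish. -/
def points {n : ℕ} (I : Ideal (Poly n)) (B : ℝ) : Set (Projectivization ℚ (Fin (n + 1) → ℚ)) :=
  {x | ∃ (v : Fin (n + 1) → ℤ) (hv : (fun i => (v i : ℚ)) ≠ 0), (∀ i, |(v i : ℝ)| ≤ B) ∧
    x = Projectivization.mk ℚ (fun i => (v i : ℚ)) hv ∧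
    ∀ f ∈ I, eval (fun i => (v i : ℚ)) f = 0}

/-- For all `n ≥ 1` and `k ≤ n` there is a constant `c` such that every variety of pure dimension
`k` and degree `d` in `P^n` has at most `c d ^ (n / (n + 1)) B ^ (k + 1)` rational points of
height at most `B`, for all `B ≥ 1`. -/
theorem result (n k : ℕ) (hn : 1 ≤ n) (hk : k ≤ n) : ∃ c : ℝ, 0 < c ∧
    ∀ I : Ideal (Poly n), I.IsHomogeneous (homogeneousSubmodule (Fin (n + 1)) ℚ) → PureDim k I →
      ∀ δ : Ideal (Poly n) → ℝ, (∀ p ∈ I.minimalPrimes, IsDegree k p (δ p)) →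
      ∀ B : ℝ, 1 ≤ B → (points I B).Finite ∧
        ((points I B).ncard : ℝ)
          ≤ c * (∑ᶠ p ∈ I.minimalPrimes, δ p) ^ ((n : ℝ) / (n + 1)) * B ^ (k + 1) := by
  classical
  obtain ⟨c, hc, hcore⟩ := Pool.Agent.R452.SZ.core n k hn hk
  refine ⟨c, hc, ?_⟩
  intro I hI hdim δ hδ B hB
  have hfin := Ideal.finite_minimalPrimes_of_isNoetherianRing (Poly n) I
  have hBf : 1 ≤ ⌊B⌋₊ := Nat.le_floor (by exact_mod_cast hB)
  have hv : ∀ x ∈ points I B, ∃ v : Fin (n + 1) → ℤ, ∃ hv : (fun i => (v i : ℚ)) ≠ 0,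
      (∀ i, |(v i : ℝ)| ≤ B) ∧ x = Projectivization.mk ℚ (fun i => (v i : ℚ)) hv ∧
      ∀ f ∈ I, eval (fun i => (v i : ℚ)) f = 0 := fun x hx => hx
  choose! v hv0 hvB hvx hvI using hv
  have hinj : Set.InjOn v (points I B) := by
    intro x hx y hy hxy
    rw [hvx x hx, hvx y hy]
    congr 1
    rw [hxy]
  have hbox : ∀ x ∈ points I B, Pool.Agent.R452.SZ.nm (v x) ≤ ⌊B⌋₊ := by
    intro x hx
    rw [Pool.Agent.R452.SZ.nm_le_iff]
    intro i
    apply Nat.le_floor
    have h1 := hvB x hx i
    rwa [Nat.cast_natAbs, Int.cast_abs]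
  have hfinpts : (points I B).Finite := by
    apply Set.Finite.of_injOn (f := v)
      (t := (Pool.Agent.R452.SZ.box (Fin (n + 1)) ⌊B⌋₊ : Set (Fin (n + 1) → ℤ))) _ hinj
      (Finset.finite_toSet _)
    intro x hx
    rw [Finset.mem_coe, Pool.Agent.R452.SZ.mem_box]
    exact hbox x hx
  refine ⟨hfinpts, ?_⟩
  let S : Finset (Fin (n + 1) → ℤ) := hfinpts.toFinset.image v
  have hScard : S.card = (points I B).ncard := by
    rw [Finset.card_image_of_injOn, Set.ncard_eq_toFinset_card _ hfinpts]
    rw [hfinpts.coe_toFinset]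
    exact hinj
  have hmem : ∀ P ∈ S, ∃ x ∈ points I B, v x = P := by
    intro P hP
    obtain ⟨x, hx, rfl⟩ := Finset.mem_image.1 hP
    exact ⟨x, hfinpts.mem_toFinset.1 hx, rfl⟩
  have hne : ∀ x ∈ points I B, v x ≠ 0 := by
    intro x hx h0
    apply hv0 x hx
    funext i
    rw [h0]
    simp
  have h1 := hcore hfin.toFinset δ (by
      intro p hp
      rw [hfin.mem_toFinset] at hp
      exact ⟨hp.1.1, Pool.Agent.R452.SZ.minimalPrimes_hom hI hp, hdim p hp, hδ p hp⟩)
    ⌊B⌋₊ hBf S (by
      intro P hP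
      obtain ⟨x, hx, rfl⟩ := hmem P hP
      refine ⟨hne x hx, hbox x hx, ?_⟩
      have hle : I ≤ RingHom.ker (eval (fun i => ((v x) i : ℚ))) := fun f hf => hvI x hx f hf
      have hker : (RingHom.ker (eval (fun i => ((v x) i : ℚ)))).IsPrime := RingHom.ker_isPrime _
      obtain ⟨p, hp1, hp2⟩ := Ideal.exists_minimalPrimes_le hle
      exact ⟨p, hfin.mem_toFinset.2 hp1, fun f hf => hp2 hf⟩) (by
      intro P hP Q hQ hPQ
      obtain ⟨x, hx, rfl⟩ := hmem P hP
      obtain ⟨y, hy, rfl⟩ := hmem Q hQ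
      have hxy : x = y := by
        rw [hvx x hx, hvx y hy, Projectivization.mk_eq_mk_iff']
        obtain ⟨j, hj⟩ : ∃ j, v y j ≠ 0 := by
          by_contra h
          push Not at h
          exact hne y hy (funext h)
        have hj' : (v y j : ℚ) ≠ 0 := by exact_mod_cast hj
        refine ⟨(v x j : ℚ) / (v y j : ℚ), ?_⟩
        funext i
        simp only [Pi.smul_apply, smul_eq_mul]
        have h2 : (v x i : ℚ) * v y j = v x j * v y i := by exact_mod_cast hPQ i j
        rw [div_mul_eq_mul_div, ← h2]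
        field_simp
      rw [hxy])
  rw [hScard] at h1
  refine h1.trans ?_
  have h2 : (∑ᶠ p ∈ I.minimalPrimes, δ p) = ∑ p ∈ hfin.toFinset, δ p :=
    finsum_mem_eq_finite_toFinset_sum δ hfin
  rw [h2]
  have h3 : 0 ≤ ∑ p ∈ hfin.toFinset, δ p := by
    apply Finset.sum_nonneg
    intro p hp
    rw [hfin.mem_toFinset] at hp
    apply ge_of_tendsto (hδ p hp)
    filter_upwards with t
    positivity
  have h4 : ((⌊B⌋₊ : ℕ) : ℝ) ≤ B := Nat.floor_le (by linarith)
  gcongr

end Pool.Agent.Results.MP_a053e2_nt.Sublinear
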